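import Mathlib
import Pool.Agent.Results.MP_ada285_co.OnlineBounded

/-!
One on-line colouring algorithm, proper on every graph, which on every finite graph without
induced triangle and without induced path on six vertices uses at most `8 * k + 8` colours as soon
as some proper on-line algorithm colours every ordering of that graph with at most `k` colours.
-/

set_option autoImplicit false

namespace Pool.Agent.Results.MP_59dfc5_co.TriangleP6Free

open Pool.Agent.Results.MP_ada285_co.OnlineBounded

lemma noTri_mono {S S' : SimpleGraph ℕ} (h : ∀ a b, S.Adj a b → S'.Adj a b) (hT : NoTri S') :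
    NoTri S := fun a b c hab hbc hac => hT a b c (h _ _ hab) (h _ _ hbc) (h _ _ hac)

lemma rest_eq {G G' : SimpleGraph ℕ} {n : ℕ}
    (h : ∀ i j : ℕ, i ≤ n → j ≤ n → (G.Adj i j ↔ G'.Adj i j)) :
    rest G (n + 1) = rest G' (n + 1) := by
  ext a b
  constructor
  · rintro ⟨h1, h2, h3⟩
    exact ⟨(h a b (by omega) (by omega)).1 h1, h2, h3⟩
  · rintro ⟨h1, h2, h3⟩
    exact ⟨(h a b (by omega) (by omega)).2 h1, h2, h3⟩

open Classical in
/-- the algorithm: as long as the revealed graph is good, follow `alg` (even colours),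
otherwise use a fresh odd colour -/
noncomputable def bigAlg (n : ℕ) (G : SimpleGraph ℕ) : ℕ :=
  if NoTri (rest G (n + 1)) ∧ NoP6 (rest G (n + 1)) then 2 * run alg G n else 2 * n + 1

lemma bigAlg_local (n : ℕ) (G G' : SimpleGraph ℕ)
    (h : ∀ i j : ℕ, i ≤ n → j ≤ n → (G.Adj i j ↔ G'.Adj i j)) : bigAlg n G = bigAlg n G' := by
  unfold bigAlg
  rw [rest_eq h, run_congr alg G G' (n + 1) (fun a b ha hb => h a b (by omega) (by omega)) n
    (by omega)]

lemma bigAlg_proper (G : SimpleGraph ℕ) (i j : ℕ) (hij : i < j) (hadj : G.Adj i j) :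
    bigAlg i G ≠ bigAlg j G := by
  unfold bigAlg
  by_cases hj : NoTri (rest G (j + 1)) ∧ NoP6 (rest G (j + 1))
  · have hi : NoTri (rest G (i + 1)) ∧ NoP6 (rest G (i + 1)) := by
      have e : rest (rest G (j + 1)) (i + 1) = rest G (i + 1) := rest_rest G (by omega)
      constructor
      · have := hj.1.rest (i + 1)
        rwa [e] at this
      · have := hj.2.rest (i + 1)
        rwa [e] at this
    rw [if_pos hi, if_pos hj]
    have hc := run_alg (rest G (j + 1))
    have h1 : run alg G i = run alg (rest G (j + 1)) i :=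
      run_congr alg G (rest G (j + 1)) (j + 1)
        (fun a b ha hb => ⟨fun h => ⟨h, ha, hb⟩, fun h => h.1⟩) i (by omega)
    have h2 : run alg G j = run alg (rest G (j + 1)) j :=
      run_congr alg G (rest G (j + 1)) (j + 1)
        (fun a b ha hb => ⟨fun h => ⟨h, ha, hb⟩, fun h => h.1⟩) j (by omega)
    have h3 : run alg (rest G (j + 1)) i ≠ run alg (rest G (j + 1)) j :=
      proper hj.1 hj.2 _ hc (a := i) (b := j) ⟨hadj.symm, by omega, by omega⟩ hij
    rw [h1, h2]
    omega
  · rw [if_neg hj]
    split_ifs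
    · omega
    · omega

/-- on-line algorithm in the sense of the earlier file, from a local rule -/
def conv (B : ℕ → SimpleGraph ℕ → ℕ) : OnlineAlg := fun n Γ _ => B n (lift Γ)

lemma conv_colour (B : ℕ → SimpleGraph ℕ → ℕ)
    (hB : ∀ (n : ℕ) (G G' : SimpleGraph ℕ),
      (∀ i j : ℕ, i ≤ n → j ≤ n → (G.Adj i j ↔ G'.Adj i j)) → B n G = B n G')
    {m : ℕ} (H : SimpleGraph (Fin m)) (π : Equiv.Perm (Fin m)) (i : ℕ) (hi : i < m) :
    colour (conv B) H π i hi = B i (lift (H.comap π)) := by
  rw [colour_step]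
  unfold conv
  apply hB
  intro a b ha hb
  constructor
  · rintro ⟨h1, h2, h3⟩
    exact ⟨by omega, by omega, h3⟩
  · rintro ⟨h1, h2, h3⟩
    exact ⟨by omega, by omega, h3⟩

lemma image_range {m : ℕ} (f : ℕ → ℕ) :
    (Finset.range m).image f = Finset.univ.image (fun i : Fin m => f i) := by
  ext x
  simp only [Finset.mem_image, Finset.mem_range, Finset.mem_univ, true_and]
  constructor
  · rintro ⟨a, ha, rfl⟩
    exact ⟨⟨a, ha⟩, rfl⟩
  · rintro ⟨a, rfl⟩
    exact ⟨a, a.2, rfl⟩

/-- There are one on-line colouring algorithm `A`, proper on all graphs, such that for every finite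
graph `H` without triangle and without induced path on six vertices and every `k`: if some proper
on-line algorithm `B` colours every ordering of `H` with at most `k` colours, then `A` uses at most
`8 * k + 8` colours on every ordering of `H`. -/
theorem result :
    ∃ A : ℕ → SimpleGraph ℕ → ℕ,
      (∀ (n : ℕ) (G G' : SimpleGraph ℕ),
        (∀ i j : ℕ, i ≤ n → j ≤ n → (G.Adj i j ↔ G'.Adj i j)) → A n G = A n G') ∧
      (∀ (G : SimpleGraph ℕ) (i j : ℕ), i < j → G.Adj i j → A i G ≠ A j G) ∧
      ∀ (m : ℕ) (H : SimpleGraph (Fin m)),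
        H.CliqueFree 3 → IsEmpty (SimpleGraph.pathGraph 6 ↪g H) → ∀ k : ℕ,
        (∃ B : ℕ → SimpleGraph ℕ → ℕ,
          (∀ (n : ℕ) (G G' : SimpleGraph ℕ),
            (∀ i j : ℕ, i ≤ n → j ≤ n → (G.Adj i j ↔ G'.Adj i j)) → B n G = B n G') ∧
          (∀ (G : SimpleGraph ℕ) (i j : ℕ), i < j → G.Adj i j → B i G ≠ B j G) ∧
          ∀ (G : SimpleGraph ℕ) (σ : Fin m ≃ Fin m),
            (∀ i j : Fin m, G.Adj (i : ℕ) (j : ℕ) ↔ H.Adj (σ i) (σ j)) →
            ((Finset.range m).image (fun i => B i G)).card ≤ k) →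
        ∀ (G : SimpleGraph ℕ) (σ : Fin m ≃ Fin m),
          (∀ i j : Fin m, G.Adj (i : ℕ) (j : ℕ) ↔ H.Adj (σ i) (σ j)) →
          ((Finset.range m).image (fun i => A i G)).card ≤ 8 * k + 8 := by
  refine ⟨bigAlg, bigAlg_local, bigAlg_proper, ?_⟩
  intro m H hT hP k ⟨B, hBl, hBp, hBk⟩ G σ hG
  have hcls : C3P6Free m H := ⟨hT, hP⟩
  -- the on-line chromatic number is at most k
  have hk : chiOL H ≤ k := by
    have hW : WorksOn (conv B) H := by
      intro π i j hij
      rw [conv_colour B hBl, conv_colour B hBl]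
      have hadj : (lift (H.comap π)).Adj i j := ⟨i.2, j.2, hij⟩
      rcases lt_trichotomy i.1 j.1 with hlt | heq | hlt
      · exact hBp _ _ _ hlt hadj
      · exact absurd heq (SimpleGraph.Adj.ne hadj)
      · exact (hBp _ _ _ hlt hadj.symm).symm
    have h1 : chiOL H ≤ chiA (conv B) H := Nat.sInf_le ⟨conv B, hW, rfl⟩
    have h2 : chiA (conv B) H ≤ k := by
      unfold chiA
      apply Finset.sup_le
      intro π _
      unfold numColours
      have h3 := hBk (lift (H.comap π)) π (by
        intro i j
        constructor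
        · rintro ⟨_, _, h⟩
          exact h
        · intro h
          exact ⟨i.2, j.2, h⟩)
      rw [image_range] at h3
      have e : (fun i : Fin m => colour (conv B) H π i i.2)
          = fun i : Fin m => B i (lift (H.comap π)) := by
        funext i
        exact conv_colour B hBl H π i i.2
      rw [e]
      exact h3
    exact h1.trans h2
  have hrun : ∀ i : Fin m, bigAlg i G = 2 * colour alg H σ i i.2 := by
    intro i
    have hgood : NoTri (rest G (i + 1)) ∧ NoP6 (rest G (i + 1)) := by
      obtain ⟨g1, g2⟩ := c3p6_comap hcls σ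
      have e : rest (lift (H.comap σ)) (i + 1) = rest G (i + 1) := by
        ext a b
        constructor
        · rintro ⟨⟨ha, hb, h⟩, h1, h2⟩
          exact ⟨(hG ⟨a, ha⟩ ⟨b, hb⟩).2 h, h1, h2⟩
        · rintro ⟨h, h1, h2⟩
          have hi := i.2
          refine ⟨⟨by omega, by omega, ?_⟩, h1, h2⟩
          exact (hG ⟨a, by omega⟩ ⟨b, by omega⟩).1 h
      constructor
      · have := g1.rest (i + 1)
        rwa [e] at this
      · have := g2.rest (i + 1)
        rwa [e] at this
    have hcol : colour alg H σ i i.2 = run alg G i := by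
      apply colour_eq_run alg H σ G m ?_ i i.2 i.2
      intro a b ha hb _ _
      exact hG ⟨a, ha⟩ ⟨b, hb⟩
    unfold bigAlg
    rw [if_pos hgood, hcol]
  rw [image_range]
  have e1 : (fun i : Fin m => bigAlg i G) = fun i : Fin m => 2 * colour alg H σ i i.2 := by
    funext i
    exact hrun i
  rw [e1]
  have e2 : (Finset.univ.image fun i : Fin m => 2 * colour alg H σ i i.2)
      = (Finset.univ.image fun i : Fin m => colour alg H σ i i.2).image (fun x => 2 * x) := by
    rw [Finset.image_image]
    rfl
  rw [e2]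
  have h4 : numColours alg H σ ≤ chiA alg H :=
    Finset.le_sup (f := fun π : Equiv.Perm (Fin m) => numColours alg H π) (Finset.mem_univ σ)
  have h5 := alg_bound hcls
  have h6 : ((Finset.univ.image fun i : Fin m => colour alg H σ i i.2).image
      (fun x => 2 * x)).card ≤ numColours alg H σ := Finset.card_image_le
  omega

end Pool.Agent.Results.MP_59dfc5_co.TriangleP6Free
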